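import Pool.Agent.H58.XR.Ineq

set_option autoImplicit false

namespace Pool.Agent.H58.XR

/-- squared Euclidean norm -/
def N (y : ℤ × ℤ) : ℤ := y.1 ^ 2 + y.2 ^ 2

lemma N_nonneg (y : ℤ × ℤ) : 0 ≤ N y := by unfold N; positivity

lemma N_pos {y : ℤ × ℤ} (h : y ≠ 0) : 1 ≤ N y := by
  unfold N
  have : y.1 ≠ 0 ∨ y.2 ≠ 0 := by
    by_contra hc
    rw [not_or, not_not, not_not] at hc
    exact h (Prod.ext hc.1 hc.2)
  rcases this with h1 | h1
  · have := Int.one_le_abs h1
    have h2 : 1 ≤ y.1 ^ 2 := by rw [← sq_abs]; nlinarith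
    nlinarith [sq_nonneg y.2]
  · have := Int.one_le_abs h1
    have h2 : 1 ≤ y.2 ^ 2 := by rw [← sq_abs]; nlinarith
    nlinarith [sq_nonneg y.1]

/-- the `k`-th lattice point of the line through `(g u, g v)` perpendicular to `(u, v)` -/
def pt (g u v k : ℤ) : ℤ × ℤ := (g * u - k * v, g * v + k * u)

lemma N_pt (g u v k : ℤ) : N (pt g u v k) = (u ^ 2 + v ^ 2) * (g ^ 2 + k ^ 2) := by
  unfold N pt; ring

/-- every nonzero lattice point is `g (u, v)` with `u, v` coprime -/
lemma decomp {z : ℤ × ℤ} (hz : z ≠ 0) : ∃ g u v : ℤ, 1 ≤ g ∧ IsCoprime u v ∧ z = (g * u, g * v) := by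
  have hne : z.1 ≠ 0 ∨ z.2 ≠ 0 := by
    by_contra hc
    rw [not_or, not_not, not_not] at hc
    exact hz (Prod.ext hc.1 hc.2)
  have hg : 0 < Int.gcd z.1 z.2 := Int.gcd_pos_iff.mpr hne
  obtain ⟨u, v, huv, h1, h2⟩ := Int.exists_gcd_one hg
  refine ⟨Int.gcd z.1 z.2, u, v, by exact_mod_cast hg, Int.isCoprime_iff_gcd_eq_one.mpr huv, ?_⟩
  apply Prod.ext
  · simp only; rw [mul_comm]; exact h1
  · simp only; rw [mul_comm]; exact h2

/-- the lattice points of the line `γ_z`, `z ≠ 0` -/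
def line (z : ℤ × ℤ) : Set (ℤ × ℤ) := {y | z.1 * y.1 + z.2 * y.2 = z.1 ^ 2 + z.2 ^ 2}

lemma mem_line {g u v : ℤ} (hg : 1 ≤ g) (huv : IsCoprime u v) (y : ℤ × ℤ) :
    y ∈ line (g * u, g * v) ↔ ∃ k : ℤ, y = pt g u v k := by
  unfold line pt
  constructor
  · intro h
    simp only [Set.mem_ofPred_eq] at h
    have h1 : u * (y.1 - g * u) + v * (y.2 - g * v) = 0 := by
      have h2 : g * (u * (y.1 - g * u) + v * (y.2 - g * v)) = 0 := by linear_combination h
      rcases mul_eq_zero.mp h2 with h3 | h3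
      · omega
      · exact h3
    obtain ⟨a, b, hab⟩ := huv
    refine ⟨a * (y.2 - g * v) - b * (y.1 - g * u), ?_⟩
    apply Prod.ext
    · simp only
      linear_combination (-(y.1 - g * u)) * hab + a * h1
    · simp only
      linear_combination (-(y.2 - g * v)) * hab + b * h1
  · rintro ⟨k, rfl⟩
    simp only [Set.mem_ofPred_eq]
    ring


lemma pt_injective (g u v : ℤ) (h : u ≠ 0 ∨ v ≠ 0) : Function.Injective (pt g u v) := by
  intro k l hkl
  unfold pt at hkl
  have h1 := congrArg Prod.fst hkl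
  have h2 := congrArg Prod.snd hkl
  simp only at h1 h2
  rcases h with h | h
  · have : u * (k - l) = 0 := by linear_combination h2
    rcases mul_eq_zero.mp this with h3 | h3
    · exact absurd h3 h
    · omega
  · have : v * (k - l) = 0 := by linear_combination -h1
    rcases mul_eq_zero.mp this with h3 | h3
    · exact absurd h3 h
    · omega

/-- the equivalence of `ℤ` with the lattice points of `γ_z` -/
lemma tsum_line {g u v : ℤ} (hg : 1 ≤ g) (huv : IsCoprime u v) (f : ℤ × ℤ → ℂ) :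
    ∑' y : line (g * u, g * v), f y = ∑' k : ℤ, f (pt g u v k) := by
  have hne : u ≠ 0 ∨ v ≠ 0 := by
    by_contra hc
    rw [not_or, not_not, not_not] at hc
    rw [hc.1, hc.2] at huv
    exact not_isCoprime_zero_zero huv
  have hr : line (g * u, g * v) = Set.range (pt g u v) := by
    ext y
    rw [mem_line hg huv y, Set.mem_range]
    exact ⟨fun ⟨k, hk⟩ => ⟨k, hk.symm⟩, fun ⟨k, hk⟩ => ⟨k, hk.symm⟩⟩
  rw [hr]
  exact tsum_range f (pt_injective g u v hne)

/-- the content of a point of the line divides `k (u² + v²)` -/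
lemma content {g u v k d p q : ℤ} (h : pt g u v k = (d * p, d * q)) : d ∣ k * (u ^ 2 + v ^ 2) := by
  unfold pt at h
  have h1 := congrArg Prod.fst h
  have h2 := congrArg Prod.snd h
  simp only at h1 h2
  exact ⟨u * q - v * p, by linear_combination -v * h1 + u * h2⟩

lemma N_coprime_pos {u v : ℤ} (huv : IsCoprime u v) : 1 ≤ u ^ 2 + v ^ 2 := by
  have : (u, v) ≠ (0, 0) := by
    intro h
    rw [Prod.mk.injEq] at h
    rw [h.1, h.2] at huv
    exact not_isCoprime_zero_zero huv
  have := N_pos (y := (u, v)) this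
  unfold N at this
  exact this

end Pool.Agent.H58.XR
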