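import Pool.Agent.H58.XR.Step

set_option autoImplicit false

namespace Pool.Agent.H58.XR

open Real

lemma pt_zero (g u v : ℤ) : pt g u v 0 = (g * u, g * v) := by unfold pt; simp

lemma N_base (g u v : ℤ) : N (g * u, g * v) = (u ^ 2 + v ^ 2) * g ^ 2 := by unfold N; ring

lemma N_pt_gt {g u v k : ℤ} (huv : IsCoprime u v) (hk : k ≠ 0) : N (g * u, g * v) + 1 ≤ N (pt g u v k) := by
  rw [N_pt, N_base]
  have h1 := N_coprime_pos huv
  have h2 : 1 ≤ k ^ 2 := by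
    have := Int.one_le_abs hk
    rw [← sq_abs]; nlinarith
  nlinarith

lemma ne_zero_of_N {y : ℤ × ℤ} (h : 1 ≤ N y) : y ≠ 0 := by
  rintro rfl
  unfold N at h
  simp at h

lemma halve {β : ℝ} (h1 : 2 / 3 < β) (h2 : β ≤ 1) {h : ℤ × ℤ → ℂ} {R : ℝ} (hR1 : 1 ≤ R)
    (hR : ∀ M : ℝ, R ≤ M → 32 / β * (M * exp (-(β / 4) * M ^ (β - 2 / 3))) ≤ 1 / 2)
    (heq : ∀ z : ℤ × ℤ, z ≠ 0 → R ≤ ((N z : ℤ) : ℝ) → ∑' y : line z, h y = 0)
    {B : ℝ} (hB : 0 ≤ B) (hb : ∀ z : ℤ × ℤ, R ≤ ((N z : ℤ) : ℝ) → ‖h z‖ ≤ B * exp (-E β z)) :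
    ∀ z : ℤ × ℤ, R ≤ ((N z : ℤ) : ℝ) → ‖h z‖ ≤ B / 2 * exp (-E β z) := by
  have hN1 : ∀ {y : ℤ × ℤ}, R ≤ ((N y : ℤ) : ℝ) → 1 ≤ N y := by
    intro y hy
    have : (1 : ℝ) ≤ ((N y : ℤ) : ℝ) := le_trans hR1 hy
    exact_mod_cast this
  have hmono : ∀ {g u v : ℤ} (k : ℤ), IsCoprime u v → R ≤ ((N (g * u, g * v) : ℤ) : ℝ) →
      R ≤ ((N (pt g u v k) : ℤ) : ℝ) := by
    intro g u v k huv hz
    by_cases hk : k = 0
    · rw [hk, pt_zero]; exact hz
    · have := N_pt_gt (g := g) huv hk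
      have h3 : ((N (g * u, g * v) : ℤ) : ℝ) ≤ ((N (pt g u v k) : ℤ) : ℝ) := by exact_mod_cast (by omega)
      linarith
  have hlight : ∀ g u v : ℤ, 1 ≤ g → IsCoprime u v → R ≤ ((N (g * u, g * v) : ℤ) : ℝ) →
      ‖h (g * u, g * v)‖ ≤ 4 * B * exp (-E β (g * u, g * v) - β / 2 * (E β (g * u, g * v) / (g : ℝ) ^ 2)) := by
    intro g u v hg huv hz
    have hne := ne_zero_of_N (hN1 hz)
    have he := heq _ hne hz
    rw [tsum_line hg huv h] at he
    exact light (by linarith) h2 hg huv hB he (fun k => hb _ (hmono k huv hz))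
  intro z hz
  have hne := ne_zero_of_N (hN1 hz)
  obtain ⟨g, u, v, hg, huv, rfl⟩ := decomp hne
  have he := heq _ hne hz
  rw [tsum_line hg huv h] at he
  have hmain := heavy h1 h2 hg huv hne hB he (by
    intro k hk
    have hy := hmono k huv hz
    have hy1 := hN1 hy
    have hyne := ne_zero_of_N hy1
    obtain ⟨d, p, q, hd, hpq, hy2⟩ := decomp hyne
    have hl := hlight d p q hd hpq (by rw [← hy2]; exact hy)
    rw [← hy2] at hl
    refine le_trans hl ?_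
    apply mul_le_mul_of_nonneg_left _ (by positivity)
    apply Real.exp_le_exp.mpr
    have hdvd := content hy2
    have ha1 := N_coprime_pos huv
    have hka : k * (u ^ 2 + v ^ 2) ≠ 0 := mul_ne_zero hk (by omega)
    have hle : d ≤ |k * (u ^ 2 + v ^ 2)| := Int.le_of_dvd (abs_pos.mpr hka) ((dvd_abs _ _).mpr hdvd)
    have hle2 : (d : ℝ) ^ 2 ≤ ((k : ℝ) * ((u : ℝ) ^ 2 + (v : ℝ) ^ 2)) ^ 2 := by
      have h3 : (d : ℝ) ≤ |(k : ℝ) * ((u : ℝ) ^ 2 + (v : ℝ) ^ 2)| := by exact_mod_cast hle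
      have h4 : (0 : ℝ) ≤ d := by exact_mod_cast (by omega : (0 : ℤ) ≤ d)
      rw [← sq_abs ((k : ℝ) * ((u : ℝ) ^ 2 + (v : ℝ) ^ 2))]
      exact pow_le_pow_left₀ h4 h3 2
    have hd0 : (0 : ℝ) < (d : ℝ) ^ 2 := by
      have : (1 : ℝ) ≤ d := by exact_mod_cast hd
      positivity
    have hEE : E β (g * u, g * v) ≤ E β (pt g u v k) := by
      unfold E
      apply Real.rpow_le_rpow
      · exact_mod_cast N_nonneg _
      · have := N_pt_gt (g := g) huv hk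
        exact_mod_cast (by omega)
      · linarith
    have h5 : E β (g * u, g * v) / ((k : ℝ) * ((u : ℝ) ^ 2 + (v : ℝ) ^ 2)) ^ 2 ≤ E β (pt g u v k) / (d : ℝ) ^ 2 :=
      div_le_div₀ (E_nonneg _ _) hEE hd0 hle2
    have hb0 : 0 < β := by linarith
    have h6 := mul_le_mul_of_nonneg_left h5 (show (0 : ℝ) ≤ β / 2 by positivity)
    linarith)
  refine le_trans hmain ?_
  have h7 := hR _ hz
  have h8 : 0 ≤ exp (-E β (g * u, g * v)) := (Real.exp_pos _).le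
  have h9 : B * (32 / β * (((N (g * u, g * v) : ℤ) : ℝ) *
      exp (-(β / 4) * (((N (g * u, g * v) : ℤ) : ℝ) ^ (β - 2 / 3))))) ≤ B * (1 / 2) :=
    mul_le_mul_of_nonneg_left h7 hB
  have h10 := mul_le_mul_of_nonneg_right h9 h8
  linarith

theorem uniq {β : ℝ} (h1 : 2 / 3 < β) (h2 : β ≤ 1) {h : ℤ × ℤ → ℂ} {C : ℝ}
    (hC : ∀ y, ‖h y‖ ≤ C * exp (-E β y)) {A : ℝ}
    (heq : ∀ z : ℤ × ℤ, z ≠ 0 → A ≤ ((N z : ℤ) : ℝ) → ∑' y : line z, h y = 0) :
    ∀ z : ℤ × ℤ, z ≠ 0 → A ≤ ((N z : ℤ) : ℝ) → h z = 0 := by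
  obtain ⟨M0, hM1, hM0⟩ := exists_M0 h1
  obtain ⟨R, hRdef⟩ : ∃ R : ℝ, R = max M0 A := ⟨_, rfl⟩
  have hRM : M0 ≤ R := by rw [hRdef]; exact le_max_left _ _
  have hRA : A ≤ R := by rw [hRdef]; exact le_max_right _ _
  have hC0 : 0 ≤ C := by
    have h3 := le_trans (norm_nonneg _) (hC 0)
    have h4 : 0 < exp (-E β 0) := Real.exp_pos _
    by_contra hcon
    rw [not_le] at hcon
    nlinarith
  have hall : ∀ n : ℕ, ∀ z : ℤ × ℤ, R ≤ ((N z : ℤ) : ℝ) → ‖h z‖ ≤ C / 2 ^ n * exp (-E β z) := by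
    intro n
    induction n with
    | zero => intro z _; simpa using hC z
    | succ n ih =>
      have := halve h1 h2 (le_trans hM1 hRM) (fun M hM => hM0 M (le_trans hRM hM))
        (fun z hz hzR => heq z hz (le_trans hRA hzR)) (by positivity) ih
      intro z hz
      refine le_trans (this z hz) (le_of_eq ?_)
      rw [pow_succ]
      ring
  have hbig : ∀ z : ℤ × ℤ, R ≤ ((N z : ℤ) : ℝ) → h z = 0 := by
    intro z hz
    have hl : Filter.Tendsto (fun n : ℕ => C / 2 ^ n * exp (-E β z)) Filter.atTop (nhds 0) := by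
      have h5 : Filter.Tendsto (fun n : ℕ => C * exp (-E β z) * (1 / 2 : ℝ) ^ n) Filter.atTop (nhds 0) := by
        have := (tendsto_pow_atTop_nhds_zero_of_lt_one (r := (1 / 2 : ℝ)) (by norm_num) (by norm_num)).const_mul
          (C * exp (-E β z))
        simpa using this
      refine h5.congr ?_
      intro n
      rw [one_div, inv_pow]
      ring
    have h6 : ‖h z‖ ≤ 0 := ge_of_tendsto' hl (fun n => hall n z hz)
    exact norm_le_zero_iff.mp h6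
  have hdown : ∀ m : ℕ, ∀ z : ℤ × ℤ, z ≠ 0 → A ≤ ((N z : ℤ) : ℝ) → R ≤ ((N z : ℤ) : ℝ) + m → h z = 0 := by
    intro m
    induction m with
    | zero => intro z _ _ hz; exact hbig z (by simpa using hz)
    | succ m ih =>
      intro z hz hzA hzR
      have he := heq z hz hzA
      obtain ⟨g, u, v, hg, huv, rfl⟩ := decomp hz
      rw [tsum_line hg huv h, tsum_eq_single 0] at he
      · rw [pt_zero] at he; exact he
      · intro k hk
        have h3 := N_pt_gt (g := g) huv hk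
        have h4 : ((N (g * u, g * v) : ℤ) : ℝ) + 1 ≤ ((N (pt g u v k) : ℤ) : ℝ) := by exact_mod_cast h3
        apply ih
        · exact ne_zero_of_N (by have := N_pos hz; omega)
        · linarith
        · push_cast at hzR; linarith
  intro z hz hzA
  obtain ⟨m, hm⟩ := exists_nat_ge (R - ((N z : ℤ) : ℝ))
  exact hdown m z hz hzA (by linarith)

end Pool.Agent.H58.XR
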