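import Mathlib

set_option autoImplicit false

namespace Pool.Agent.H58.XR

lemma bern {β t : ℝ} (h0 : 0 ≤ β) (h2 : β ≤ 1) (ht0 : 0 < t) :
    1 + β * t * (1 + t) ^ (β - 1) ≤ (1 + t) ^ β := by
  have hpos : 0 < 1 + t := by linarith
  have hs : -1 ≤ -(t / (1 + t)) := by
    have : t / (1 + t) ≤ 1 := by rw [div_le_one hpos]; linarith
    linarith
  have h := rpow_one_add_le_one_add_mul_self hs h0 h2
  have e1 : 1 + -(t / (1 + t)) = (1 + t)⁻¹ := by field_simp; ring
  rw [e1, Real.inv_rpow hpos.le] at h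
  have hp : 0 < (1 + t) ^ β := Real.rpow_pos_of_pos hpos _
  have h3 := mul_le_mul_of_nonneg_left h hp.le
  rw [mul_inv_cancel₀ hp.ne'] at h3
  have e2 : (1 + t) ^ (β - 1) = (1 + t) ^ β / (1 + t) := by
    rw [Real.rpow_sub hpos, Real.rpow_one]
  have e3 : (1 + t) ^ β * (1 + β * -(t / (1 + t))) = (1 + t) ^ β - β * t * ((1 + t) ^ β / (1 + t)) := by
    field_simp
    ring
  rw [e2]
  linarith [e3 ▸ h3]

lemma two_rpow {β : ℝ} (h : 0 ≤ β) : (1 / 2 : ℝ) ≤ 2 ^ (β - 1) := by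
  have a2 : (2 : ℝ) ^ (-1 : ℝ) ≤ 2 ^ (β - 1) :=
    Real.rpow_le_rpow_of_exponent_le (by norm_num) (by linarith)
  rw [Real.rpow_neg_one] at a2
  linarith

lemma pow_grow {β : ℝ} (h1 : 1 / 2 ≤ β) (h2 : β ≤ 1) {g k : ℝ} (hg : 1 ≤ g) (hk : 1 ≤ k) :
    1 + β / 2 * (k / g ^ 2) ≤ (1 + k ^ 2 / g ^ 2) ^ β := by
  obtain ⟨t, ht⟩ : ∃ t : ℝ, t = k ^ 2 / g ^ 2 := ⟨_, rfl⟩
  rw [← ht]
  have hg0 : 0 < g := by linarith
  have hk0 : 0 < k := by linarith
  have ht0 : 0 < t := by rw [ht]; positivity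
  have hb0 : 0 < β := by linarith
  have hB := bern hb0.le h2 ht0
  refine le_trans ?_ hB
  have hneg : β - 1 ≤ 0 := by linarith
  rcases le_total t 1 with h | h
  · have a1 : (2 : ℝ) ^ (β - 1) ≤ (1 + t) ^ (β - 1) :=
      Real.rpow_le_rpow_of_nonpos (by positivity) (by linarith) hneg
    have h4 : (1 / 2 : ℝ) ≤ (1 + t) ^ (β - 1) := le_trans (two_rpow hb0.le) a1
    have h5 : k / g ^ 2 ≤ t := by
      rw [ht]
      apply div_le_div_of_nonneg_right _ (by positivity)
      nlinarith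
    have h6 : β * t * (1 / 2) ≤ β * t * (1 + t) ^ (β - 1) :=
      mul_le_mul_of_nonneg_left h4 (by positivity)
    have h7 : β / 2 * (k / g ^ 2) ≤ β / 2 * t := mul_le_mul_of_nonneg_left h5 (by positivity)
    linarith
  · have hp : 0 < t ^ (β - 1) := Real.rpow_pos_of_pos ht0 _
    have a1 : (2 * t) ^ (β - 1) ≤ (1 + t) ^ (β - 1) :=
      Real.rpow_le_rpow_of_nonpos (by positivity) (by linarith) hneg
    have h4 : 1 / 2 * t ^ (β - 1) ≤ (1 + t) ^ (β - 1) := by
      rw [Real.mul_rpow (by norm_num) ht0.le] at a1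
      exact le_trans (mul_le_mul_of_nonneg_right (two_rpow hb0.le) hp.le) a1
    have h5 : t * t ^ (β - 1) = t ^ β := by
      rw [Real.rpow_sub ht0, Real.rpow_one]; field_simp
    have hs1 : 1 ≤ k / g := by
      by_contra hcon
      rw [not_le] at hcon
      have h0 : 0 ≤ k / g := by positivity
      have : (k / g) ^ 2 < 1 := by nlinarith
      rw [div_pow, ← ht] at this
      linarith
    have e4 : t = (k / g) ^ 2 := by rw [ht, div_pow]
    have b1 : t ^ (1 / 2 : ℝ) ≤ t ^ β := Real.rpow_le_rpow_of_exponent_le h h1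
    have b2 : t ^ (1 / 2 : ℝ) = k / g := by
      rw [← Real.sqrt_eq_rpow, e4, Real.sqrt_sq (by positivity)]
    have b3 : k / g ^ 2 ≤ k / g := by
      apply div_le_div_of_nonneg_left hk0.le hg0
      nlinarith
    have h6 : k / g ^ 2 ≤ t ^ β := by linarith
    have h7 : β * t * (1 / 2 * t ^ (β - 1)) ≤ β * t * (1 + t) ^ (β - 1) :=
      mul_le_mul_of_nonneg_left h4 (by positivity)
    have h8 : β * t * (1 / 2 * t ^ (β - 1)) = β / 2 * t ^ β := by rw [← h5]; ring
    have h9 : β / 2 * (k / g ^ 2) ≤ β / 2 * t ^ β := mul_le_mul_of_nonneg_left h6 (by positivity)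
    linarith

/-- geometric sum over the nonzero integers -/
lemma hasSum_geo {r : ℝ} (h0 : 0 ≤ r) (h1 : r < 1) :
    HasSum (fun k : ℤ => if k = 0 then (0 : ℝ) else r ^ k.natAbs) (r / (1 - r) + r / (1 - r)) := by
  have hg := hasSum_geometric_of_lt_one h0 h1
  have hA : HasSum (fun n : ℕ => r ^ (n + 1)) (r / (1 - r)) := by
    have := hg.mul_left r
    simpa [pow_succ', div_eq_mul_inv] using this
  refine HasSum.of_nat_of_neg_add_one ?_ ?_
  · have e : (fun n : ℕ => if ((n : ℤ)) = 0 then (0 : ℝ) else r ^ ((n : ℤ)).natAbs) =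
        fun n : ℕ => if n = 0 then (0 : ℝ) else r ^ n := by
      funext n
      simp
    rw [e]
    have hB : HasSum (fun n : ℕ => (fun m : ℕ => if m = 0 then (0 : ℝ) else r ^ m) (n + 1)) (r / (1 - r)) := by
      have e2 : (fun n : ℕ => (fun m : ℕ => if m = 0 then (0 : ℝ) else r ^ m) (n + 1)) = fun n : ℕ => r ^ (n + 1) := by
        funext n
        simp
      rw [e2]
      exact hA
    have := (hasSum_nat_add_iff (f := fun m : ℕ => if m = 0 then (0 : ℝ) else r ^ m) 1).mp hB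
    simpa using this
  · have e : (fun n : ℕ => if (-((n : ℤ) + 1)) = 0 then (0 : ℝ) else r ^ (-((n : ℤ) + 1)).natAbs) =
        fun n : ℕ => r ^ (n + 1) := by
      funext n
      have h3 : (-((n : ℤ) + 1)) ≠ 0 := by omega
      have h4 : (-((n : ℤ) + 1)).natAbs = n + 1 := by omega
      rw [if_neg h3, h4]
    rw [e]
    exact hA

end Pool.Agent.H58.XR
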