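import Pool.Agent.H58.XR.Core

set_option autoImplicit false

namespace Pool.Agent.H58.XR

open Real

lemma head_bound {F : ℤ → ℂ} {c r : ℝ} (h0 : 0 ≤ r) (h1 : r < 1) (_hc : 0 ≤ c) (heq : ∑' k, F k = 0)
    (hF : ∀ k, k ≠ 0 → ‖F k‖ ≤ c * r ^ k.natAbs) : ‖F 0‖ ≤ c * (r / (1 - r) + r / (1 - r)) := by
  have hg := (hasSum_geo h0 h1).mul_left c
  have hb : ∀ k, ‖(if k = 0 then (0 : ℂ) else F k)‖ ≤ c * (if k = 0 then (0 : ℝ) else r ^ k.natAbs) := by
    intro k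
    by_cases hk : k = 0
    · simp [hk]
    · rw [if_neg hk, if_neg hk]; exact hF k hk
  have hs : Summable (fun k => if k = 0 then (0 : ℂ) else F k) :=
    Summable.of_norm_bounded hg.summable hb
  have hS : Summable F := by
    have h2 : Summable (fun k : ℤ => if k = 0 then F k else (0 : ℂ)) :=
      summable_of_ne_finset_zero (s := {0}) (by intro b hb; simp at hb; simp [hb])
    have h3 := hs.add h2
    refine h3.congr ?_
    intro k
    by_cases hk : k = 0 <;> simp [hk]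
  have h4 := hS.tsum_eq_add_tsum_ite 0
  rw [heq] at h4
  have h5 : F 0 = -∑' k, (if k = 0 then (0 : ℂ) else F k) := by
    rw [eq_neg_iff_add_eq_zero]; exact h4.symm
  rw [h5, norm_neg]
  exact tsum_of_norm_bounded hg hb

/-- `|z| ^ (2 β)` -/
noncomputable def E (β : ℝ) (y : ℤ × ℤ) : ℝ := ((N y : ℤ) : ℝ) ^ β

lemma E_nonneg (β : ℝ) (y : ℤ × ℤ) : 0 ≤ E β y := by
  unfold E
  apply Real.rpow_nonneg
  exact_mod_cast N_nonneg y

lemma E_growth {β : ℝ} (h1 : 1 / 2 ≤ β) (h2 : β ≤ 1) {g u v k : ℤ} (hg : 1 ≤ g) (huv : IsCoprime u v) (hk : k ≠ 0) :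
    E β (g * u, g * v) + β / 2 * (E β (g * u, g * v) / (g : ℝ) ^ 2) * (k.natAbs : ℝ) ≤ E β (pt g u v k) := by
  have ha : (1 : ℝ) ≤ (u : ℝ) ^ 2 + (v : ℝ) ^ 2 := by exact_mod_cast N_coprime_pos huv
  have hg1 : (1 : ℝ) ≤ g := by exact_mod_cast hg
  have hk1 : (1 : ℝ) ≤ (k.natAbs : ℝ) := by exact_mod_cast Int.natAbs_pos.mpr hk
  have hN1 : ((N (g * u, g * v) : ℤ) : ℝ) = ((u : ℝ) ^ 2 + (v : ℝ) ^ 2) * (g : ℝ) ^ 2 := by
    unfold N; push_cast; ring
  have hksq : ((k.natAbs : ℝ)) ^ 2 = (k : ℝ) ^ 2 := by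
    rw [Nat.cast_natAbs, Int.cast_abs, sq_abs]
  have hg0 : (g : ℝ) ≠ 0 := by linarith
  have hN2 : ((N (pt g u v k) : ℤ) : ℝ) =
      (((u : ℝ) ^ 2 + (v : ℝ) ^ 2) * (g : ℝ) ^ 2) * (1 + (k.natAbs : ℝ) ^ 2 / (g : ℝ) ^ 2) := by
    rw [N_pt, hksq]; push_cast; field_simp
  have hp := pow_grow h1 h2 hg1 hk1
  unfold E
  have hm := Real.mul_rpow (x := ((u : ℝ) ^ 2 + (v : ℝ) ^ 2) * (g : ℝ) ^ 2)
    (y := 1 + (k.natAbs : ℝ) ^ 2 / (g : ℝ) ^ 2) (z := β) (by positivity) (by positivity)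
  rw [hN1, hN2, hm]
  have hX : 0 ≤ (((u : ℝ) ^ 2 + (v : ℝ) ^ 2) * (g : ℝ) ^ 2) ^ β := by positivity
  have := mul_le_mul_of_nonneg_left hp hX
  refine le_trans (le_of_eq ?_) this
  ring

/-- the light bound -/
lemma light {β : ℝ} (h1 : 1 / 2 ≤ β) (h2 : β ≤ 1) {g u v : ℤ} (hg : 1 ≤ g) (huv : IsCoprime u v)
    {h : ℤ × ℤ → ℂ} {B : ℝ} (hB : 0 ≤ B) (heq : ∑' k : ℤ, h (pt g u v k) = 0)
    (hb : ∀ k : ℤ, ‖h (pt g u v k)‖ ≤ B * exp (-E β (pt g u v k))) :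
    ‖h (g * u, g * v)‖ ≤ 4 * B * exp (-E β (g * u, g * v) - β / 2 * (E β (g * u, g * v) / (g : ℝ) ^ 2)) := by
  obtain ⟨τ, hτ⟩ : ∃ τ : ℝ, τ = β / 2 * (E β (g * u, g * v) / (g : ℝ) ^ 2) := ⟨_, rfl⟩
  have hz : pt g u v 0 = (g * u, g * v) := by unfold pt; simp
  rw [← hτ]
  have he1 : exp (-1) ≥ 1 / 4 := by
    have := Real.exp_one_lt_d9
    rw [Real.exp_neg, ge_iff_le, one_div]
    apply inv_anti₀ (Real.exp_pos 1)
    linarith
  have he2 : exp (-1) ≤ 1 / 2 := by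
    have := Real.exp_one_gt_d9
    rw [Real.exp_neg, one_div]
    apply inv_anti₀ (by norm_num)
    linarith
  have hsplit : exp (-E β (g * u, g * v) - τ) = exp (-E β (g * u, g * v)) * exp (-τ) := by
    rw [← Real.exp_add]; ring_nf
  have hEp : 0 < exp (-E β (g * u, g * v)) := Real.exp_pos _
  rcases lt_or_ge τ 1 with ht | ht
  · have h0 := hb 0
    rw [hz] at h0
    have h3 : 1 / 4 ≤ exp (-τ) := le_trans he1 (Real.exp_le_exp.mpr (by linarith))
    refine le_trans h0 ?_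
    rw [hsplit]
    have h4 : B * exp (-E β (g * u, g * v)) * 1 ≤ B * exp (-E β (g * u, g * v)) * (4 * exp (-τ)) :=
      mul_le_mul_of_nonneg_left (by linarith) (by positivity)
    linarith
  · have hr0 : 0 ≤ exp (-τ) := (Real.exp_pos _).le
    have hr1 : exp (-τ) ≤ 1 / 2 := le_trans (Real.exp_le_exp.mpr (by linarith)) he2
    have hmain := head_bound (F := fun k => h (pt g u v k)) (c := B * exp (-E β (g * u, g * v))) (r := exp (-τ))
      hr0 (by linarith) (by positivity) heq (by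
        intro k hk
        refine le_trans (hb k) ?_
        have hgr := E_growth h1 h2 hg huv hk
        rw [← hτ] at hgr
        rw [← Real.exp_nat_mul, mul_assoc, ← Real.exp_add]
        apply mul_le_mul_of_nonneg_left _ hB
        apply Real.exp_le_exp.mpr
        nlinarith)
    simp only [hz] at hmain
    refine le_trans hmain ?_
    rw [hsplit]
    have h5 : exp (-τ) / (1 - exp (-τ)) ≤ 2 * exp (-τ) := by
      rw [div_le_iff₀ (by linarith)]
      nlinarith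
    have h6 : B * exp (-E β (g * u, g * v)) * (exp (-τ) / (1 - exp (-τ)) + exp (-τ) / (1 - exp (-τ))) ≤
        B * exp (-E β (g * u, g * v)) * (4 * exp (-τ)) :=
      mul_le_mul_of_nonneg_left (by linarith) (by positivity)
    linarith

end Pool.Agent.H58.XR
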