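import Pool.Agent.H58.XR.Main

set_option autoImplicit false

namespace Pool.Agent.H58.XR

open Real

lemma E_ge_one {β : ℝ} (h0 : 0 ≤ β) {z : ℤ × ℤ} (hz : z ≠ 0) : 1 ≤ E β z := by
  unfold E
  exact Real.one_le_rpow (by exact_mod_cast N_pos hz) h0

lemma xbound {x M : ℝ} (hx : 0 < x) (hM : 0 < M) : 1 / M ^ (2 / 3 : ℝ) ≤ x / M + 2 / x ^ 2 := by
  obtain ⟨c, hc⟩ : ∃ c : ℝ, c = M ^ (1 / 3 : ℝ) := ⟨_, rfl⟩
  have hc0 : 0 < c := by rw [hc]; positivity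
  have h3 : c ^ 3 = M := by
    rw [hc, ← Real.rpow_natCast, ← Real.rpow_mul hM.le]; norm_num
  have h2 : c ^ 2 = M ^ (2 / 3 : ℝ) := by
    rw [hc, ← Real.rpow_natCast, ← Real.rpow_mul hM.le]; norm_num
  rw [← h2, ← h3]
  rcases le_total x c with h | h
  · have h4 : 1 / c ^ 2 ≤ 1 / x ^ 2 := by
      apply one_div_le_one_div_of_le (by positivity)
      exact pow_le_pow_left₀ hx.le h 2
    have h5 : 0 ≤ x / c ^ 3 := by positivity
    have h6 : 2 / x ^ 2 = 1 / x ^ 2 + 1 / x ^ 2 := by ring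
    have h7 : 0 ≤ 1 / x ^ 2 := by positivity
    linarith
  · have h4 : 1 / c ^ 2 ≤ x / c ^ 3 := by
      rw [div_le_div_iff₀ (by positivity) (by positivity)]
      have : c ^ 3 = c * c ^ 2 := by ring
      rw [this, one_mul]
      exact mul_le_mul_of_nonneg_right h (by positivity)
    have h5 : 0 ≤ 2 / x ^ 2 := by positivity
    linarith

lemma heavy {β : ℝ} (h1 : 2 / 3 < β) (h2 : β ≤ 1) {g u v : ℤ} (hg : 1 ≤ g) (huv : IsCoprime u v)
    (hz : (g * u, g * v) ≠ ((0 : ℤ), (0 : ℤ)))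
    {h : ℤ × ℤ → ℂ} {B : ℝ} (hB : 0 ≤ B) (heq : ∑' k : ℤ, h (pt g u v k) = 0)
    (hb : ∀ k : ℤ, k ≠ 0 → ‖h (pt g u v k)‖ ≤ 4 * B * exp (-E β (pt g u v k) -
      β / 2 * (E β (g * u, g * v) / ((k : ℝ) * ((u : ℝ) ^ 2 + (v : ℝ) ^ 2)) ^ 2))) :
    ‖h (g * u, g * v)‖ ≤ B * (32 / β * (((N (g * u, g * v) : ℤ) : ℝ) *
      exp (-(β / 4) * (((N (g * u, g * v) : ℤ) : ℝ) ^ (β - 2 / 3))))) * exp (-E β (g * u, g * v)) := by
  have hz' : (g * u, g * v) ≠ (0 : ℤ × ℤ) := hz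
  have hz0 : pt g u v 0 = (g * u, g * v) := by unfold pt; simp
  have hE1 : 1 ≤ E β (g * u, g * v) := E_ge_one (by linarith) hz'
  have hM1 : (1 : ℝ) ≤ ((N (g * u, g * v) : ℤ) : ℝ) := by exact_mod_cast N_pos hz'
  obtain ⟨M, hM⟩ : ∃ M : ℝ, M = ((N (g * u, g * v) : ℤ) : ℝ) := ⟨_, rfl⟩
  obtain ⟨e, he⟩ : ∃ e : ℝ, e = E β (g * u, g * v) := ⟨_, rfl⟩
  have heM : e = M ^ β := by rw [he, hM]; rfl
  have ha : (1 : ℝ) ≤ (u : ℝ) ^ 2 + (v : ℝ) ^ 2 := by exact_mod_cast N_coprime_pos huv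
  have hg1 : (1 : ℝ) ≤ g := by exact_mod_cast hg
  have hNa : M = ((u : ℝ) ^ 2 + (v : ℝ) ^ 2) * (g : ℝ) ^ 2 := by
    rw [hM]; unfold N; push_cast; ring
  rw [← hM] at hM1 ⊢
  rw [← he] at hE1 ⊢
  have hb0 : 0 < β := by linarith
  obtain ⟨a, haa⟩ : ∃ a : ℝ, a = (u : ℝ) ^ 2 + (v : ℝ) ^ 2 := ⟨_, rfl⟩
  rw [← haa] at ha hNa
  obtain ⟨τ, hτ⟩ : ∃ τ : ℝ, τ = β / 2 * (e / (g : ℝ) ^ 2) := ⟨_, rfl⟩
  have hg2 : 0 < (g : ℝ) ^ 2 := by positivity
  have hτ0 : 0 < τ := by rw [hτ]; positivity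
  obtain ⟨Q, hQ⟩ : ∃ Q : ℝ, Q = β / 4 * (e / M ^ (2 / 3 : ℝ)) := ⟨_, rfl⟩
  have hQ2 : Q = β / 4 * M ^ (β - 2 / 3) := by
    rw [hQ, heM, Real.rpow_sub (by linarith)]
  have hkey : ∀ k : ℤ, k ≠ 0 → Q ≤ τ * (k.natAbs : ℝ) / 2 + β / 2 * (e / ((k : ℝ) * a) ^ 2) := by
    intro k hk
    have hk1 : (1 : ℝ) ≤ (k.natAbs : ℝ) := by exact_mod_cast Int.natAbs_pos.mpr hk
    have hsq : ((k : ℝ) * a) ^ 2 = (a * (k.natAbs : ℝ)) ^ 2 := by
      rw [Nat.cast_natAbs, Int.cast_abs, mul_pow, mul_pow, sq_abs]; ring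
    have hx := xbound (x := a * (k.natAbs : ℝ)) (M := M) (by positivity) (by linarith)
    rw [hsq, hQ]
    have e1 : τ * (k.natAbs : ℝ) / 2 = β / 4 * e * (a * (k.natAbs : ℝ) / M) := by
      rw [hτ, hNa]; field_simp; ring
    have e2 : β / 2 * (e / (a * (k.natAbs : ℝ)) ^ 2) = β / 4 * e * (2 / (a * (k.natAbs : ℝ)) ^ 2) := by ring
    have e3 : β / 4 * (e / M ^ (2 / 3 : ℝ)) = β / 4 * e * (1 / M ^ (2 / 3 : ℝ)) := by ring
    rw [e1, e2, e3, ← mul_add]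
    exact mul_le_mul_of_nonneg_left hx (by positivity)
  have hr1 : exp (-(τ / 2)) * (τ + 2) ≤ 2 := by
    have h3 : τ / 2 + 1 ≤ exp (τ / 2) := Real.add_one_le_exp _
    have h4 : exp (-(τ / 2)) * exp (τ / 2) = 1 := by rw [← Real.exp_add]; simp
    have h5 : 0 < exp (-(τ / 2)) := Real.exp_pos _
    nlinarith
  have hrp : 0 < exp (-(τ / 2)) := Real.exp_pos _
  have hr2 : exp (-(τ / 2)) < 1 := by
    rw [← Real.exp_zero]; exact Real.exp_lt_exp.mpr (by linarith)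
  have hmain := head_bound (F := fun k => h (pt g u v k)) (c := 4 * B * exp (-e - Q)) (r := exp (-(τ / 2)))
    hrp.le hr2 (by positivity) heq (by
      intro k hk
      refine le_trans (hb k hk) ?_
      have hgr := E_growth (by linarith) h2 hg huv hk
      rw [← he, ← hτ] at hgr
      have hk2 := hkey k hk
      rw [← he, ← haa, ← Real.exp_nat_mul, mul_assoc (4 * B), ← Real.exp_add]
      apply mul_le_mul_of_nonneg_left _ (by positivity)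
      apply Real.exp_le_exp.mpr
      nlinarith)
  simp only [hz0] at hmain
  have h6 : exp (-(τ / 2)) / (1 - exp (-(τ / 2))) ≤ 2 / τ := by
    rw [div_le_div_iff₀ (by linarith) hτ0]
    linarith
  have h7 : 2 / τ + 2 / τ ≤ 8 * M / β := by
    have e4 : 2 / τ + 2 / τ = 8 * (g : ℝ) ^ 2 / (β * e) := by rw [hτ]; field_simp; ring
    rw [e4, div_le_div_iff₀ (by positivity) hb0]
    have : (g : ℝ) ^ 2 ≤ M * e := by
      have h8 : (g : ℝ) ^ 2 ≤ M := by rw [hNa]; nlinarith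
      nlinarith
    nlinarith
  have h9 : exp (-(τ / 2)) / (1 - exp (-(τ / 2))) + exp (-(τ / 2)) / (1 - exp (-(τ / 2))) ≤ 8 * M / β := by linarith
  refine le_trans hmain ?_
  refine le_trans (mul_le_mul_of_nonneg_left h9 (by positivity)) (le_of_eq ?_)
  have e5 : exp (-e - Q) = exp (-(β / 4) * M ^ (β - 2 / 3)) * exp (-e) := by
    rw [← Real.exp_add, hQ2]; ring_nf
  rw [e5]
  ring

/-- the constant is small for large `M` -/
lemma exists_M0 {β : ℝ} (h1 : 2 / 3 < β) : ∃ M0 : ℝ, 1 ≤ M0 ∧ ∀ M : ℝ, M0 ≤ M →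
    32 / β * (M * exp (-(β / 4) * M ^ (β - 2 / 3))) ≤ 1 / 2 := by
  have hη : 0 < β - 2 / 3 := by linarith
  have hb0 : 0 < β := by linarith
  have ht := tendsto_rpow_mul_exp_neg_mul_atTop_nhds_zero (1 / (β - 2 / 3)) (β / 4) (by positivity)
  have ht2 := ht.comp (tendsto_rpow_atTop hη)
  have ht3 := ht2.const_mul (32 / β)
  rw [mul_zero] at ht3
  have hev := ht3.eventually (ge_mem_nhds (show (0 : ℝ) < 1 / 2 by norm_num))
  obtain ⟨A, hA⟩ := Filter.eventually_atTop.mp hev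
  refine ⟨max A 1, le_max_right _ _, ?_⟩
  intro M hM
  have h3 := hA M (le_trans (le_max_left _ _) hM)
  have hM1 : 1 ≤ M := le_trans (le_max_right _ _) hM
  simp only [Function.comp] at h3
  rw [← Real.rpow_mul (by linarith), mul_one_div_cancel hη.ne', Real.rpow_one] at h3
  exact h3

end Pool.Agent.H58.XR
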